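import Pool.Agent.H249R3.Ckt.Stage
import Pool.Agent.H620R2.GaugeX.X1
import Pool.Agent.H620R2.Gauge.Q
import Pool.Agent.H622R2.Exp.L
import Pool.Agent.H622R2.Exp.YAux
import Pool.Agent.H943R6.MC.PLT
import Pool.Agent.H622R2.Exp.E0

/-!
# Many oracles make exponential time easy for circuits at infinitely many lengths

(helper249)
-/

set_option autoImplicit false

namespace Pool.Agent.H249R3.Ckt

open Pool.Agent.NPC Pool.Agent.H620R2.Gauge Pool.Agent.H622R2.Ckt Finset Filter
open Pool.Agent.H622R2.Exp (Lin InTime not_null_ev)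
open Pool.Agent.H943R6.MC (askC size_askC eval_askC)

/-- the code strings -/
def cdn (ρ : ℕ → ℕ → ℕ) (e : ℕ) (z : List Bool) : List Bool :=
  List.replicate e true ++ false :: (List.replicate (ρ e z.length) true ++ false :: z)

theorem cdn_inj {ρ : ℕ → ℕ → ℕ} {e e' : ℕ} {z z' : List Bool} (h : cdn ρ e z = cdn ρ e' z') :
    e = e' ∧ z = z' := by
  obtain ⟨h1, h2⟩ := marker_inj h
  obtain ⟨-, h3⟩ := marker_inj h2
  exact ⟨h1, h3⟩

theorem length_cdn (ρ : ℕ → ℕ → ℕ) (e : ℕ) (z : List Bool) :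
    (cdn ρ e z).length = e + ρ e z.length + z.length + 2 := by
  simp only [cdn, List.length_append, List.length_cons, List.length_replicate]
  omega

/-- the condition on the gauge -/
def Big (f : ℕ → ℝ) : Prop :=
  ∀ C : ℕ, ∃ᶠ N : ℕ in atTop, ∀ M ≥ N, (Real.logb 2 N) ^ C < f M

theorem logb_tendsto : Tendsto (fun N : ℕ => Real.logb 2 N) atTop atTop :=
  (Real.tendsto_logb_atTop (by norm_num)).comp tendsto_natCast_atTop_atTop

theorem Big.unbounded {f : ℕ → ℝ} (hf : Big f) (V : ℝ) : ∃ N : ℕ, ∀ M ≥ N, V ≤ f M := by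
  obtain ⟨N, h1, h2⟩ := ((hf 1).and_eventually (logb_tendsto.eventually_ge_atTop V)).exists
  refine ⟨N, fun M hM => ?_⟩
  have := h1 M hM
  rw [pow_one] at this
  linarith

theorem exists_rho {f : ℕ → ℝ} (hf : Big f) : ∃ ρ : ℕ → ℕ → ℕ,
    (∀ e m M : ℕ, 2 ^ ρ e m ≤ M → (2 : ℝ) ^ (3 * (e + m) + 3) ≤ f M) ∧
    ∀ e m r : ℕ, (∀ M : ℕ, 2 ^ r ≤ M → (2 : ℝ) ^ (3 * (e + m) + 3) ≤ f M) → ρ e m ≤ r := by
  classical
  have hex : ∀ e m : ℕ, ∃ r : ℕ, ∀ M : ℕ, 2 ^ r ≤ M → (2 : ℝ) ^ (3 * (e + m) + 3) ≤ f M := by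
    intro e m
    obtain ⟨N, hN⟩ := hf.unbounded ((2 : ℝ) ^ (3 * (e + m) + 3))
    exact ⟨N, fun M hM => hN M (le_trans Nat.lt_two_pow_self.le hM)⟩
  exact ⟨fun e m => Nat.find (hex e m), fun e m => Nat.find_spec (hex e m),
    fun e m r hr => Nat.find_min' (hex e m) hr⟩

open Classical in
theorem count_le {f : ℕ → ℝ} {ρ : ℕ → ℕ → ℕ}
    (hρ : ∀ e m M : ℕ, 2 ^ ρ e m ≤ M → (2 : ℝ) ^ (3 * (e + m) + 3) ≤ f M) :
    ∀ᶠ N : ℕ in atTop, (((Finset.range N).filter
      (fun i => str i ∈ {y | ∃ e z, y = cdn ρ e z})).card : ℝ) ≤ f N := by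
  filter_upwards [eventually_ge_atTop (2 ^ ρ 0 0)] with N hN0
  have hf0 : 0 ≤ f N := le_trans (by positivity) (hρ 0 0 N hN0)
  let P : ℕ → Prop := fun i => ∃ e z, str i = cdn ρ e z
  change (((Finset.range N).filter P).card : ℝ) ≤ f N
  have hcode : ∀ (i : ℕ) (e : ℕ) (z : List Bool), i < N → str i = cdn ρ e z →
      (2 : ℝ) ^ (3 * (e + z.length) + 3) ≤ f N := by
    intro i e z hi h
    apply hρ
    have h1 := congrArg List.length h
    rw [length_str, length_cdn] at h1
    have h2 : 2 ^ Nat.log 2 (i + 1) ≤ i + 1 := Nat.pow_log_le_self 2 (by omega)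
    have h3 : 2 ^ ρ e z.length ≤ 2 ^ Nat.log 2 (i + 1) :=
      Nat.pow_le_pow_right (by norm_num) (by omega)
    omega
  have hfl : ∀ D : ℕ, (2 : ℝ) ^ (3 * D + 3) ≤ f N → D ≤ ⌊f N⌋₊ := by
    intro D hD
    apply Nat.le_floor
    have h1 : D < 2 ^ (3 * D + 3) :=
      lt_of_lt_of_le Nat.lt_two_pow_self (Nat.pow_le_pow_right (by norm_num) (by omega))
    have h2 : (D : ℝ) ≤ 2 ^ (3 * D + 3) := by exact_mod_cast h1.le
    linarith
  by_cases hne : ((Finset.range N).filter P).Nonempty
  · let J := Nat.findGreatest (fun D => (2 : ℝ) ^ (3 * D + 3) ≤ f N) ⌊f N⌋₊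
    have hJ : ∀ (i : ℕ) (e : ℕ) (z : List Bool), i < N → str i = cdn ρ e z →
        e + z.length ≤ J := fun i e z hi h =>
      Nat.le_findGreatest (hfl _ (hcode i e z hi h)) (hcode i e z hi h)
    have hPJ : (2 : ℝ) ^ (3 * J + 3) ≤ f N := by
      obtain ⟨i, hi⟩ := hne
      rw [Finset.mem_filter, Finset.mem_range] at hi
      obtain ⟨hi, e, z, h⟩ := hi
      exact Nat.findGreatest_spec (P := fun D => (2 : ℝ) ^ (3 * D + 3) ≤ f N)
        (hfl _ (hcode i e z hi h)) (hcode i e z hi h)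
    let w : ℕ → List Bool := fun i =>
      if h : P i then List.replicate h.choose true ++ false :: h.choose_spec.choose else []
    have hw : ∀ i, (h : P i) → w i =
        List.replicate h.choose true ++ false :: h.choose_spec.choose := fun i h => dif_pos h
    have hcd : ∀ i, (h : P i) → str i = cdn ρ h.choose h.choose_spec.choose :=
      fun i h => h.choose_spec.choose_spec
    have hcard : ((Finset.range N).filter P).card ≤ 2 ^ (J + 2) := by
      rw [← Finset.card_range (2 ^ (J + 2))]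
      apply Finset.card_le_card_of_injOn (fun i => idx (w i))
      · intro i hi
        rw [Finset.mem_coe, Finset.mem_filter, Finset.mem_range] at hi
        have hP : P i := hi.2
        rw [Finset.mem_coe, Finset.mem_range]
        have h6 := hJ i _ _ hi.1 (hcd i hP)
        have h7 : (w i).length ≤ J + 1 := by
          rw [hw i hP]
          simp
          omega
        have h8 := idx_lt (w i)
        have h9 : 2 ^ ((w i).length + 1) ≤ 2 ^ (J + 2) :=
          Nat.pow_le_pow_right (by norm_num) (by omega)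
        show idx (w i) < 2 ^ (J + 2)
        omega
      · intro i hi j hj hij
        rw [Finset.mem_coe, Finset.mem_filter] at hi hj
        have hPi : P i := hi.2
        have hPj : P j := hj.2
        have h1 : w i = w j := by
          have := congrArg str hij
          simpa [str_idx] using this
        rw [hw i hPi, hw j hPj] at h1
        obtain ⟨h2, h3⟩ := marker_inj h1
        apply str_injective
        have h4 : ∀ (e e' : ℕ) (x x' : List Bool), e = e' → x = x' →
            cdn ρ e x = cdn ρ e' x' := by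
          intro e e' x x' he hx
          rw [he, hx]
        rw [hcd i hPi, hcd j hPj]
        exact h4 _ _ _ _ h2 h3
    have h10 : (((Finset.range N).filter P).card : ℝ) ≤ 2 ^ (J + 2) := by exact_mod_cast hcard
    have h11 : (2 : ℝ) ^ (J + 2) ≤ 2 ^ (3 * J + 3) := pow_le_pow_right₀ (by norm_num) (by omega)
    linarith
  · rw [Finset.not_nonempty_iff_eq_empty] at hne
    rw [hne]
    simpa using hf0

/-- the exponents of the time bounds -/
noncomputable def pp (c : ℕ → ℕ) (e : ℕ) : Polynomial ℕ :=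
  Polynomial.C (c e) * (Polynomial.X + 1)

theorem hl_pp (c : ℕ → ℕ) (e n : ℕ) : hl (pp c) e n = c e * (n + 1) + 2 * n + e + 2 := by
  unfold hl pp
  rw [Pool.Agent.H622R2.Exp.YAux.eval_lin]

/-- the length of the coded strings -/
def me (c : ℕ → ℕ) (e n : ℕ) : ℕ := 4 * (c e * (n + 1) + 2 * n + e + 2) + n + 2

theorem me_le (c : ℕ → ℕ) (e n : ℕ) :
    3 * (e + me c e n) + 3 ≤ (12 * c e + 15 * e + 33) * (n + 1) := by
  unfold me
  nlinarith [Nat.zero_le (c e * n), Nat.zero_le (e * n)]

/-- there are infinitely many cheap lengths -/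
theorem exists_len {f : ℕ → ℝ} (hf : Big f) {ρ : ℕ → ℕ → ℕ}
    (hρ : ∀ e m r : ℕ, (∀ M : ℕ, 2 ^ r ≤ M → (2 : ℝ) ^ (3 * (e + m) + 3) ≤ f M) → ρ e m ≤ r)
    (c : ℕ → ℕ) (e k : ℕ) (hk : 1 ≤ k) (l₀ : ℕ) :
    ∃ l ≥ l₀, ρ e (me c e (k * l)) ≤ 2 ^ l := by
  set K : ℕ := 12 * c e + 15 * e + 33 with hK
  obtain ⟨N, h1, h2⟩ := ((hf (2 * K * k)).and_eventually
    (eventually_ge_atTop (2 ^ 2 ^ (l₀ + 3)))).exists
  set a := Nat.log 2 N with ha
  have hN : N ≠ 0 := by
    have : 0 < 2 ^ 2 ^ (l₀ + 3) := by positivity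
    omega
  have h3 : 2 ^ (l₀ + 3) ≤ a := Nat.le_log_of_pow_le (by norm_num) h2
  have ha0 : a ≠ 0 := by
    have : 0 < 2 ^ (l₀ + 3) := by positivity
    omega
  have h4 : l₀ + 3 ≤ Nat.log 2 a := Nat.le_log_of_pow_le (by norm_num) h3
  set l := Nat.log 2 a + 1 with hl
  refine ⟨l, by omega, hρ _ _ _ fun M hM => ?_⟩
  have h5 : a < 2 ^ l := Nat.lt_pow_succ_log_self (by norm_num) a
  have h6 : N < 2 ^ (a + 1) := Nat.lt_pow_succ_log_self (by norm_num) N
  have h7 : N ≤ M := by
    have : 2 ^ (a + 1) ≤ 2 ^ 2 ^ l := Nat.pow_le_pow_right (by norm_num) h5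
    omega
  have h8 := h1 M h7
  have h9 : (2 : ℝ) ^ (l - 1) ≤ Real.logb 2 N := by
    have h10 : 2 ^ (l - 1) ≤ a := Nat.pow_log_le_self 2 ha0
    have h11 : (a : ℝ) ≤ Real.logb 2 N := by
      rw [Real.le_logb_iff_rpow_le (by norm_num) (by positivity), Real.rpow_natCast]
      exact_mod_cast Nat.pow_log_le_self 2 hN
    have h12 : ((2 : ℝ) ^ (l - 1)) ≤ a := by exact_mod_cast h10
    linarith
  have h10 : (2 : ℝ) ^ (3 * (e + me c e (k * l)) + 3) ≤ (Real.logb 2 N) ^ (2 * K * k) := by
    calc (2 : ℝ) ^ (3 * (e + me c e (k * l)) + 3) ≤ 2 ^ (K * (k * l + 1)) :=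
          pow_le_pow_right₀ (by norm_num) (me_le c e (k * l))
      _ ≤ 2 ^ ((l - 1) * (2 * K * k)) := by
          apply pow_le_pow_right₀ (by norm_num)
          obtain ⟨t, ht⟩ : ∃ t, l = t + 3 := ⟨l - 3, by omega⟩
          rw [ht]
          have : t + 3 - 1 = t + 2 := by omega
          rw [this]
          have e1 : (t + 2) * (2 * K * k) = K * (2 * k * (t + 2)) := by ring
          rw [e1]
          apply Nat.mul_le_mul_left
          nlinarith [Nat.zero_le (k * t)]
      _ = ((2 : ℝ) ^ (l - 1)) ^ (2 * K * k) := by rw [pow_mul]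
      _ ≤ (Real.logb 2 N) ^ (2 * K * k) := pow_le_pow_left₀ (by positivity) h9 _
  linarith

theorem exists_good {A : Oracle} {n h : ℕ} (hh : n + 1 ≤ h) (Q : List Bool → Prop)
    (g : List Bool → List Bool → List Bool)
    (hb : ∀ x : List Bool, x.length = n → Q x →
      Nat.card {w : Fin (2 * h) → Bool // A (g (List.ofFn w) x) = false} ≤ 2 ^ h) :
    ∃ w : Fin (2 * h) → Bool, ∀ x : List Bool, x.length = n → Q x →
      A (g (List.ofFn w) x) = true := by
  classical
  by_contra hcon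
  push Not at hcon
  let bad : (Fin n → Bool) → Finset (Fin (2 * h) → Bool) := fun x =>
    if Q (List.ofFn x) then
      Finset.univ.filter (fun w => A (g (List.ofFn w) (List.ofFn x)) = false) else ∅
  have h1 : (Finset.univ : Finset (Fin (2 * h) → Bool)) ⊆ Finset.univ.biUnion bad := by
    intro w _
    obtain ⟨x, hx, hQ, hA⟩ := hcon w
    rw [Finset.mem_biUnion]
    subst hx
    refine ⟨fun i => x.get i, Finset.mem_univ _, ?_⟩
    have hx2 : List.ofFn (fun i => x.get i) = x := List.ofFn_get x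
    simp only [bad]
    rw [hx2, if_pos hQ, Finset.mem_filter]
    exact ⟨Finset.mem_univ _, by simpa using hA⟩
  have h2 : ∀ x, (bad x).card ≤ 2 ^ h := by
    intro x
    simp only [bad]
    split_ifs with hQ
    · have h3 := hb (List.ofFn x) (List.length_ofFn) hQ
      rw [Nat.card_eq_fintype_card, Fintype.card_subtype] at h3
      exact h3
    · simp
  have h3 := (Finset.card_le_card h1).trans Finset.card_biUnion_le
  have h4 : ∑ x : Fin n → Bool, (bad x).card ≤ 2 ^ n * 2 ^ h := by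
    refine (Finset.sum_le_sum fun x _ => h2 x).trans (le_of_eq ?_)
    rw [Finset.sum_const, Finset.card_univ]
    simp
  have h5 : (Finset.univ : Finset (Fin (2 * h) → Bool)).card = 2 ^ (2 * h) := by
    rw [Finset.card_univ]
    simp
  rw [h5] at h3
  have h6 : 2 ^ n * 2 ^ h < 2 ^ (2 * h) := by
    rw [← pow_add]
    exact Nat.pow_lt_pow_right (by norm_num) (by omega)
  omega

/-- the machines -/
abbrev Mac : Type := Alg × ℕ

/-- the questions -/
def QM (g : ℕ → Mac) (e : ℕ) (x : List Bool) (A : Oracle) : Prop :=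
  (g e).1.run A x (2 ^ ((g e).2 * (x.length + 1))) [] = some [true]

theorem small_of {A : Oracle} {ρ : ℕ → ℕ → ℕ} {c : ℕ → ℕ} {e n : ℕ} (Q : List Bool → Prop)
    (h1 : ∀ (x w : List Bool), x.length = n → w.length = 2 * hl (pp c) e n →
      A (cdn ρ e (true :: pairBits w x)) = true → Q x)
    (h2 : ∀ x : List Bool, x.length = n → Q x →
      Nat.card {w : Fin (2 * hl (pp c) e n) → Bool //
        A (cdn ρ e (true :: pairBits (List.ofFn w) x)) = false} ≤ 2 ^ hl (pp c) e n) :
    ∃ C : Circuit, C.size = e + ρ e (me c e n) + me c e n + 3 ∧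
      ∀ x : List Bool, x.length = n → (Q x ↔ C.eval A x = true) := by
  obtain ⟨w, hw⟩ := exists_good (A := A) (n := n) (h := hl (pp c) e n) (by rw [hl_pp]; omega) Q
    (fun w x => cdn ρ e (true :: pairBits w x)) h2
  have hwl : (List.ofFn w).length = 2 * hl (pp c) e n := List.length_ofFn
  set v := List.ofFn w with hv
  set u : List Bool := List.replicate e true ++ false ::
    (List.replicate (ρ e (me c e n)) true ++ false ::
      (true :: (v.flatMap (fun b => [true, b]) ++ [false]))) with hu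
  have hz : ∀ x : List Bool, x.length = n → (true :: pairBits v x).length = me c e n := by
    intro x hx
    rw [List.length_cons, Pool.Agent.H620R2.Gauge.length_pairBits, hwl, hx, hl_pp]
    unfold me
    ring
  have hux : ∀ x : List Bool, x.length = n → u ++ x = cdn ρ e (true :: pairBits v x) := by
    intro x hx
    unfold cdn
    rw [hz x hx, hu]
    unfold pairBits
    simp only [List.append_assoc, List.cons_append, List.nil_append]
  refine ⟨askC u n, ?_, fun x hx => ?_⟩
  · rw [size_askC]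
    have h3 := congrArg List.length (hux (List.replicate n false) (by simp))
    rw [List.length_append, length_cdn, hz _ (by simp), List.length_replicate] at h3
    omega
  · have h3 : (askC u n).eval A x = A (u ++ x) := by
      rw [← hx]
      exact eval_askC u A x
    rw [h3, hux x hx]
    exact ⟨fun h => hw x hx h, fun h => h1 x v hx hwl h⟩

open Classical in
theorem not_null_ckt {f : ℕ → ℝ} (hf : Big f) (O : Set Oracle)
    (hO : ∀ A : Oracle, (∀ L, InTime Lin A L → ∀ ε : ℝ, 0 < ε →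
      ∃ᶠ n : ℕ in atTop, Small A L (2 ^ (ε * n)) n) → A ∈ O) : ¬ Null f O := by
  have hne : Nonempty Mac := by
    obtain ⟨M, _⟩ := IsFP.of_poly (A := fun _ => false) (F := fun x => x) Poly.id
    exact ⟨(M, 0)⟩
  obtain ⟨g, hg⟩ := exists_surjective_nat Mac
  obtain ⟨ρ, hρ1, hρ2⟩ := exists_rho hf
  set c : ℕ → ℕ := fun e => (g e).2 with hc
  obtain ⟨Φ, hΦ⟩ := exists_stageG (cdn ρ) (fun h => cdn_inj h) (pp c) (QM g) (by
    intro e x A
    obtain ⟨U, hU1, hU2⟩ := Pool.Agent.H620R2.Gauge.run_local (g e).1 A x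
      (2 ^ ((g e).2 * (x.length + 1))) []
    refine ⟨U, ?_, fun A' hA' => ?_⟩
    · unfold pp
      rw [Pool.Agent.H622R2.Exp.YAux.eval_lin]
      exact hU1
    · unfold QM
      rw [hU2 A' hA'])
  refine not_null_ev f Φ {y | ∃ e z, y = cdn ρ e z} ?_ (count_le hρ1) O ?_
  · intro B y hy
    exact (hΦ B).1 y fun e z h => hy ⟨e, z, h⟩
  · intro B
    apply hO
    rintro L ⟨M, q, ⟨c', rfl⟩, hM⟩ ε hε
    obtain ⟨e, he⟩ := hg (M, c')
    have hL : ∀ x, x ∈ L ↔ QM g e x (Φ B) := by
      intro x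
      obtain ⟨z, hz, hx⟩ := hM x
      rw [Pool.Agent.H622R2.Exp.YAux.eval_lin] at hz
      unfold QM
      rw [he]
      simp only
      rw [hz, hx, Option.some.injEq]
    rw [frequently_atTop]
    intro n₀
    obtain ⟨k, hk⟩ := exists_nat_ge (2 / ε)
    set k' := k + 1 with hk'
    set K : ℕ := 12 * c e + 15 * e + 33 with hK
    -- the linear term is small
    obtain ⟨l₁, hl₁⟩ : ∃ l₁ : ℕ, ∀ l ≥ l₁, K * (k' * l + 1) < 2 ^ l := by
      have h1 := (Pool.Agent.H622R2.Exp.E0.poly_le
        (Polynomial.C (K * k') * Polynomial.X + Polynomial.C (K + 1)) 1)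
      obtain ⟨l₁, hl₁⟩ := Filter.eventually_atTop.1 h1
      refine ⟨l₁, fun l hl => ?_⟩
      have h2 := hl₁ l hl
      simp only [Polynomial.eval_add, Polynomial.eval_mul, Polynomial.eval_C,
        Polynomial.eval_X, one_mul] at h2
      have h3 : K * (k' * l + 1) = K * k' * l + K := by ring
      omega
    obtain ⟨l, hl, hρl⟩ := exists_len hf hρ2 c e k' (by omega) (max (max n₀ l₁) 1)
    have hl0 : n₀ ≤ l := (le_max_left n₀ l₁).trans ((le_max_left _ _).trans hl)
    have hl1 : l₁ ≤ l := (le_max_right n₀ l₁).trans ((le_max_left _ _).trans hl)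
    have hl2 : 1 ≤ l := (le_max_right _ _).trans hl
    set n := k' * l with hn
    have hn0 : n₀ ≤ n := by
      rw [hn, hk']
      nlinarith
    have hn5 : K * (n + 1) < 2 ^ l := by
      rw [hn]
      exact hl₁ l hl1
    clear_value n
    refine ⟨n, hn0, ?_⟩
    · obtain ⟨C, hC1, hC2⟩ := small_of (A := Φ B) (ρ := ρ) (c := c) (e := e) (n := n)
        (fun x => QM g e x (Φ B))
        (fun x w hx hw h => by
          subst hx
          exact (((hΦ B).2 e x true).1 w hw h).1 rfl)
        (fun x hx hQ => by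
          subst hx
          exact ((hΦ B).2 e x true).2 ⟨fun _ => hQ, fun _ => rfl⟩)
      refine ⟨C, ?_, fun x hx => (hL x).trans (hC2 x hx)⟩
      have h3 : C.size < 2 ^ (l + 1) := by
        have h4 : 3 * (e + me c e n) + 3 ≤ K * (n + 1) := me_le c e n
        rw [hC1, pow_succ]
        omega
      have h4 : (C.size : ℝ) < 2 ^ (l + 1) := by exact_mod_cast h3
      refine lt_of_lt_of_le h4 ?_
      rw [← Real.rpow_natCast]
      apply Real.rpow_le_rpow_of_exponent_le (by norm_num)
      have h5 : 2 ≤ ε * k' := by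
        rw [div_le_iff₀ hε] at hk
        rw [hk']
        push_cast
        nlinarith
      have h6 : (1 : ℝ) ≤ l := by exact_mod_cast hl2
      have h7 : (n : ℝ) = (k' : ℝ) * l := by
        rw [hn]
        push_cast
        ring
      have h8 : 2 * (l : ℝ) ≤ (ε * (k' : ℝ)) * l := mul_le_mul_of_nonneg_right h5 (by linarith)
      rw [h7]
      push_cast at h8 ⊢
      nlinarith

end Pool.Agent.H249R3.Ckt
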