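import Pool.Agent.H249R3.Ckt.Test
import Pool.Agent.H622R2.Ckt.CNT
import Pool.Agent.H622R2.Ckt.LOC
import Pool.Agent.H622R2.Exp.E0
import Pool.Agent.H620R2.Gauge2.Null

/-!
# Exponential time is hard for circuits relative to most oracles

(helper249; the counting of the circuits and their locality are from `Pool.Agent.H622R2.Ckt`)
-/

set_option autoImplicit false

namespace Pool.Agent.H249R3.Ckt

open Pool.Agent.NPC Pool.Agent.H620R2.Gauge Pool.Agent.H622R2.Ckt Finset Filter H568R2
open Pool.Agent.H622R2.Exp (Lin InTime)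

/-- infinitely often -/
theorem null_io {f : ℕ → ℝ} (X : ℕ → Set Oracle) (n₁ : ℕ)
    (h : ∀ n ≥ n₁, ∃ S : Set (List Bool), (∀ A ∈ X n, ∃ σ ∈ S, Extends A σ) ∧
      ∑' σ : S, ENNReal.ofReal (2 ^ (f σ.1.length - σ.1.length)) ≤
        ENNReal.ofReal ((1 / 2) ^ n)) :
    Null f {A | ∃ᶠ n in atTop, A ∈ X n} := by
  intro δ hδ
  obtain ⟨n₂, hn₂⟩ := exists_pow_lt_of_lt_one (show 0 < δ / 2 by positivity)
    (show (1 / 2 : ℝ) < 1 by norm_num)
  set m := max n₁ n₂ with hm
  have hX : ∀ i : ℕ, ∃ S : Set (List Bool), (∀ A ∈ X (m + i), ∃ σ ∈ S, Extends A σ) ∧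
      ∑' σ : S, ENNReal.ofReal (2 ^ (f σ.1.length - σ.1.length)) ≤
        ENNReal.ofReal ((1 / 2) ^ (m + i)) := fun i =>
    h (m + i) ((le_max_left _ _).trans (Nat.le_add_right _ _))
  choose S hS hSs using hX
  refine ⟨⋃ i, S i, ?_, ?_⟩
  · intro A hA
    obtain ⟨n, hn, hAn⟩ := (frequently_atTop.1 hA) m
    obtain ⟨i, rfl⟩ := Nat.exists_eq_add_of_le hn
    obtain ⟨σ, hσ, hE⟩ := hS i A hAn
    exact ⟨σ, Set.mem_iUnion.2 ⟨i, hσ⟩, hE⟩
  · refine (ENNReal.tsum_iUnion_le_tsum (fun σ : List Bool =>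
      ENNReal.ofReal (2 ^ (f σ.length - σ.length))) S).trans ?_
    refine (ENNReal.tsum_le_tsum hSs).trans ?_
    have h1 : ∀ i : ℕ, ((1 : ℝ) / 2) ^ (m + i) = (1 / 2) ^ m * (1 / 2) ^ i := fun i => pow_add _ _ _
    have hsum : Summable (fun i : ℕ => ((1 : ℝ) / 2) ^ (m + i)) := by
      simp_rw [h1]
      exact (summable_geometric_of_lt_one (by norm_num) (by norm_num)).mul_left _
    rw [← ENNReal.ofReal_tsum_of_nonneg (fun i => by positivity) hsum]
    apply ENNReal.ofReal_le_ofReal
    simp_rw [h1]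
    rw [tsum_mul_left, tsum_geometric_two]
    have h2 : ((1 : ℝ) / 2) ^ m ≤ (1 / 2) ^ n₂ :=
      pow_le_pow_of_le_one (by norm_num) (by norm_num) (le_max_right _ _)
    linarith

/-- The event: some circuit decides the test language for the inputs of length `n`. -/
def EvS (k n N : ℕ) (a : Fin N → Bool) : Prop :=
  ∃ C : Circuit, C.size ≤ 2 ^ (n / k) ∧ ∀ x : List Bool, x.length = n →
    (orc N a (x ++ List.replicate (2 ^ (n / k)) false) = C.eval (orc N a) x)

/-- a set of functions that are determined by their values outside of `P` is small -/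
theorem card_det {I : Type*} [Fintype I] [DecidableEq I] (P : Finset I)
    (E : Finset (I → Bool))
    (h : ∀ a ∈ E, ∀ a' ∈ E, (∀ i, i ∉ P → a i = a' i) → a = a') :
    E.card * 2 ^ P.card ≤ 2 ^ Fintype.card I := by
  classical
  have h1 : E.card ≤ Fintype.card ({i // i ∉ P} → Bool) := by
    rw [← Finset.card_univ]
    apply Finset.card_le_card_of_injOn (fun a (i : {i // i ∉ P}) => a i.1)
      (fun _ _ => Finset.mem_coe.2 (Finset.mem_univ _))
    intro a ha a' ha' haa
    exact h a ha a' ha' fun i hi => congrFun haa ⟨i, hi⟩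
  have h2 : Fintype.card ({i // i ∉ P} → Bool) = 2 ^ (Fintype.card I - P.card) := by
    rw [Fintype.card_fun, Fintype.card_bool]
    congr 1
    rw [Fintype.card_subtype_compl, Fintype.card_coe]
  rw [h2] at h1
  have h3 : P.card ≤ Fintype.card I := Finset.card_le_univ P
  calc E.card * 2 ^ P.card ≤ 2 ^ (Fintype.card I - P.card) * 2 ^ P.card :=
        Nat.mul_le_mul_right _ h1
    _ = 2 ^ Fintype.card I := by rw [← pow_add, Nat.sub_add_cancel h3]

open Classical in
theorem card_circuit (n s N : ℕ) (hN : 2 ^ (n + s + 1) ≤ N) (C : Circuit) (hC : C.size ≤ s) :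
    (univ.filter (fun a : Fin N → Bool => ∀ x : List Bool, x.length = n →
      (orc N a (x ++ List.replicate s false) = C.eval (orc N a) x))).card * 2 ^ 2 ^ n ≤ 2 ^ N := by
  have hlt : ∀ x : List Bool, x.length = n → idx (x ++ List.replicate s false) < N := by
    intro x hx
    have h1 := idx_lt (x ++ List.replicate s false)
    rw [List.length_append, List.length_replicate, hx] at h1
    omega
  let pos : (Fin n → Bool) → Fin N := fun v =>
    ⟨idx (List.ofFn v ++ List.replicate s false), hlt _ List.length_ofFn⟩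
  have hinj : Function.Injective pos := by
    intro v v' h
    have h1 : idx (List.ofFn v ++ List.replicate s false) =
        idx (List.ofFn v' ++ List.replicate s false) := congrArg Fin.val h
    have h2 := congrArg str h1
    rw [str_idx, str_idx] at h2
    exact List.ofFn_injective (List.append_cancel_right h2)
  let P : Finset (Fin N) := univ.image pos
  have hP : P.card = 2 ^ n := by
    rw [Finset.card_image_of_injective _ hinj, Finset.card_univ]
    simp
  have h1 := card_det P (univ.filter (fun a : Fin N → Bool => ∀ x : List Bool, x.length = n →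
      (orc N a (x ++ List.replicate s false) = C.eval (orc N a) x))) ?_
  · rw [hP, Fintype.card_fin] at h1
    exact h1
  · intro a ha a' ha' h
    rw [Finset.mem_filter] at ha ha'
    have hag : ∀ y : List Bool, y.length < C.size → orc N a y = orc N a' y := by
      intro y hy
      unfold orc
      split_ifs with hlt'
      · apply h
        intro hmem
        obtain ⟨v, -, hv⟩ := Finset.mem_image.1 hmem
        have h2 : idx (List.ofFn v ++ List.replicate s false) = idx y := congrArg Fin.val hv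
        have h3 := congrArg str h2
        rw [str_idx, str_idx] at h3
        have h4 := congrArg List.length h3
        rw [List.length_append, List.length_replicate] at h4
        omega
      · rfl
    funext i
    by_cases hi : i ∈ P
    · obtain ⟨v, -, rfl⟩ := Finset.mem_image.1 hi
      have h2 := ha.2 (List.ofFn v) List.length_ofFn
      have h3 := ha'.2 (List.ofFn v) List.length_ofFn
      rw [eval_local C (orc N a) (orc N a') hag, ← h3] at h2
      unfold orc at h2
      rw [dif_pos (hlt _ List.length_ofFn), dif_pos (hlt _ List.length_ofFn)] at h2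
      exact h2
    · exact h i hi

open Classical in
theorem ev_small (k n N : ℕ) (hN : 2 ^ (n + 2 ^ (n / k) + 1) ≤ N) :
    Ex unif (fun a : Fin N → Bool => if EvS k n N a then (1 : ℝ) else 0) ≤
      nC n (2 ^ (n / k)) * (1 / 2) ^ 2 ^ n := by
  obtain ⟨F, hF1, hF2⟩ := exists_circuits n (2 ^ (n / k))
  have h1 := card_of_Ex (fun a : Fin N → Bool => EvS k n N a)
  rw [← h1]
  have h2 : (univ.filter (fun a : Fin N → Bool => EvS k n N a)).card * 2 ^ 2 ^ n ≤
      F.card * 2 ^ N := by
    have h3 : univ.filter (fun a : Fin N → Bool => EvS k n N a) ⊆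
        (F.filter (fun C => C.size ≤ 2 ^ (n / k))).biUnion (fun C =>
          univ.filter (fun a : Fin N → Bool => ∀ x : List Bool, x.length = n →
            (orc N a (x ++ List.replicate (2 ^ (n / k)) false) = C.eval (orc N a) x))) := by
      intro a ha
      obtain ⟨C, hC1, hC2⟩ := (Finset.mem_filter.1 ha).2
      obtain ⟨C', hC'1, hC'2, hC'3⟩ := hF2 C hC1
      refine Finset.mem_biUnion.2 ⟨C', Finset.mem_filter.2 ⟨hC'1, hC'2⟩,
        Finset.mem_filter.2 ⟨Finset.mem_univ _, fun x hx => ?_⟩⟩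
      rw [hC2 x hx, hC'3 _ x hx]
    calc (univ.filter (fun a : Fin N → Bool => EvS k n N a)).card * 2 ^ 2 ^ n
        ≤ (∑ C ∈ F.filter (fun C => C.size ≤ 2 ^ (n / k)),
          (univ.filter (fun a : Fin N → Bool => ∀ x : List Bool, x.length = n →
            (orc N a (x ++ List.replicate (2 ^ (n / k)) false) =
              C.eval (orc N a) x))).card) * 2 ^ 2 ^ n :=
          Nat.mul_le_mul_right _ ((Finset.card_le_card h3).trans Finset.card_biUnion_le)
      _ = ∑ C ∈ F.filter (fun C => C.size ≤ 2 ^ (n / k)),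
          (univ.filter (fun a : Fin N → Bool => ∀ x : List Bool, x.length = n →
            (orc N a (x ++ List.replicate (2 ^ (n / k)) false) =
              C.eval (orc N a) x))).card * 2 ^ 2 ^ n := by rw [Finset.sum_mul]
      _ ≤ ∑ _C ∈ F.filter (fun C => C.size ≤ 2 ^ (n / k)), 2 ^ N :=
          Finset.sum_le_sum fun C hC => card_circuit n _ N hN C (Finset.mem_filter.1 hC).2
      _ ≤ F.card * 2 ^ N := by
          rw [Finset.sum_const, smul_eq_mul]
          exact Nat.mul_le_mul_right _ (Finset.card_filter_le _ _)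
  have h4 : ((univ.filter (fun a : Fin N → Bool => EvS k n N a)).card : ℝ) * 2 ^ 2 ^ n ≤
      nC n (2 ^ (n / k)) * 2 ^ N := by
    have h5 : (univ.filter (fun a : Fin N → Bool => EvS k n N a)).card * 2 ^ 2 ^ n ≤
        nC n (2 ^ (n / k)) * 2 ^ N := h2.trans (Nat.mul_le_mul_right _ hF1)
    exact_mod_cast h5
  rw [Real.rpow_neg (by norm_num), Real.rpow_natCast, ← div_eq_mul_inv,
    div_le_iff₀ (by positivity)]
  have h6 : ((1 : ℝ) / 2) ^ 2 ^ n * 2 ^ 2 ^ n = 1 := by
    rw [← mul_pow]; norm_num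
  calc ((univ.filter (fun a : Fin N → Bool => EvS k n N a)).card : ℝ)
      = ((univ.filter (fun a : Fin N → Bool => EvS k n N a)).card * 2 ^ 2 ^ n) *
          (1 / 2) ^ 2 ^ n := by
        rw [mul_assoc, mul_comm ((2 : ℝ) ^ 2 ^ n), h6, mul_one]
    _ ≤ (nC n (2 ^ (n / k)) * 2 ^ N) * (1 / 2) ^ 2 ^ n :=
        mul_le_mul_of_nonneg_right h4 (by positivity)
    _ = nC n (2 ^ (n / k)) * (1 / 2) ^ 2 ^ n * 2 ^ N := by ring

/-- the number of the circuits -/
theorem nC_le {n t K : ℕ} (ht : 8 ≤ t) (hK : n + 9 ≤ 2 ^ t) (hn : 2 * t ≤ n) (hKK : K = 2 ^ t) :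
    nC n K ≤ 2 ^ 2 ^ (n - 2) := by
  unfold nC
  have h1 : n + K + 8 ≤ 2 ^ (t + 1) := by rw [hKK, pow_succ]; omega
  calc (n + K + 8) ^ (4 * K + 4) ≤ (2 ^ (t + 1)) ^ (4 * K + 4) := Nat.pow_le_pow_left h1 _
    _ = 2 ^ ((t + 1) * (4 * K + 4)) := by rw [← pow_mul]
    _ ≤ 2 ^ 2 ^ (n - 2) := by
        apply Nat.pow_le_pow_right (by norm_num)
        have h2 : 20 * (t + 1) ≤ 2 ^ t := by
          clear hK hn hKK h1
          induction t, ht using Nat.le_induction with
          | base => norm_num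
          | succ t ht ih => rw [pow_succ]; omega
        have h3 : 4 * K + 4 ≤ 5 * K := by
          have : 2 ^ 2 ≤ 2 ^ t := Nat.pow_le_pow_right (by norm_num) (by omega)
          omega
        have h4 : 2 ^ (2 * t - 2) ≤ 2 ^ (n - 2) := Nat.pow_le_pow_right (by norm_num) (by omega)
        have h5 : 2 ^ (2 * t) = 4 * 2 ^ (2 * t - 2) := by
          have : 2 * t = (2 * t - 2) + 2 := by omega
          rw [this, pow_add]
          simp
          ring
        have h6 : 2 ^ (2 * t) = 2 ^ t * 2 ^ t := by rw [← pow_add]; congr 1; ring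
        have h7 : (t + 1) * (4 * K + 4) ≤ (t + 1) * (5 * K) := Nat.mul_le_mul_left _ h3
        have h8 : 4 * ((t + 1) * (5 * K)) = (20 * (t + 1)) * 2 ^ t := by rw [hKK]; ring
        have h9 : (20 * (t + 1)) * 2 ^ t ≤ 2 ^ t * 2 ^ t := Nat.mul_le_mul_right _ h2
        omega

theorem null_ckt {f : ℕ → ℝ} {C₀ : ℕ}
    (hf : ∀ᶠ N : ℕ in atTop, ∃ M ≥ N, f M ≤ (Real.logb 2 N) ^ C₀) :
    Null f {A | ∀ L, InTime Lin A L → ∀ ε : ℝ, 0 < ε →
      ∃ᶠ n : ℕ in atTop, Small A L (2 ^ (ε * n)) n} := by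
  classical
  set k := 2 * C₀ + 2 with hk
  obtain ⟨N₁, hN₁⟩ := hf.exists_forall_of_atTop
  -- the cheap length for the covers
  have hlen : ∀ n : ℕ, ∃ M : ℕ, N₁ ≤ n → (2 ^ (2 ^ (n / k) + n + 2) ≤ M ∧
      f M ≤ (((2 ^ (n / k) + n + 2 : ℕ) : ℝ)) ^ C₀) := by
    intro n
    by_cases hn : N₁ ≤ n
    · have h0 : 0 < 2 ^ (n / k) := by positivity
      have h1 : N₁ ≤ 2 ^ (2 ^ (n / k) + n + 2) := by
        calc N₁ ≤ n := hn
          _ ≤ 2 ^ n := Nat.lt_two_pow_self.le
          _ ≤ _ := Nat.pow_le_pow_right (by norm_num) (by omega)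
      obtain ⟨M, hM1, hM2⟩ := hN₁ _ h1
      refine ⟨M, fun _ => ⟨hM1, hM2.trans (le_of_eq ?_)⟩⟩
      congr 1
      push_cast
      rw [← Real.rpow_natCast, Real.logb_rpow (by norm_num) (by norm_num)]
      push_cast
      ring
    · exact ⟨0, fun h => absurd h hn⟩
  choose M hM using hlen
  obtain ⟨t₀, ht₀⟩ := Filter.eventually_atTop.1 (Pool.Agent.H622R2.Exp.E0.poly_le
    (Polynomial.C k * Polynomial.X + Polynomial.C (k + 9)) 1)
  have hk2 : 2 ≤ k := by omega
  set n₁ := max (k * max t₀ 8) (max N₁ 2) with hn₁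
  refine (null_io (f := f) (fun n => {A | EvS k n (M n) (pre (M n) A)}) n₁ ?_).mono ?_
  · intro n hn
    have hnN : N₁ ≤ n := (le_max_left _ _).trans ((le_max_right _ _).trans hn)
    obtain ⟨hM1, hM2⟩ := hM n hnN
    set t := n / k with ht
    have hkt : k * max t₀ 8 ≤ n := (le_max_left _ _).trans hn
    have ht1 : max t₀ 8 ≤ t := by
      rw [ht, Nat.le_div_iff_mul_le (by omega), mul_comm]
      exact hkt
    have ht8 : 8 ≤ t := (le_max_right _ _).trans ht1
    have hnt : k * t ≤ n := Nat.mul_div_le n k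
    have hnt2 : n < k * (t + 1) := by
      have := Nat.lt_mul_div_succ n (show 0 < k by omega)
      rwa [← ht] at this
    have hp := ht₀ t ((le_max_left _ _).trans ht1)
    simp only [Polynomial.eval_add, Polynomial.eval_mul, Polynomial.eval_C,
      Polynomial.eval_X, one_mul] at hp
    have hn9 : n + 9 ≤ 2 ^ t := by
      have : k * (t + 1) = k * t + k := by ring
      omega
    have h2t : 2 * t ≤ n := (Nat.mul_le_mul_right t hk2).trans hnt
    refine cover_of_event (EvS k n (M n)) {A | EvS k n (M n) (pre (M n) A)} (fun A hA => hA) f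
      ((1 / 2) ^ n) ?_
    have hev := ev_small k n (M n) (le_trans (Nat.pow_le_pow_right (by norm_num) (by
      rw [← ht]; omega)) hM1)
    rw [← ht] at hev
    have hnC : ((nC n (2 ^ t) : ℕ) : ℝ) ≤ 2 ^ 2 ^ (n - 2) := by
      exact_mod_cast nC_le ht8 hn9 h2t rfl
    -- the gauge
    have hg : f (M n) ≤ (2 : ℝ) ^ (n - 2) := by
      refine hM2.trans ?_
      have h1 : ((2 ^ t + n + 2 : ℕ) : ℝ) ≤ 2 ^ (t + 1) := by
        have : 2 ^ t + n + 2 ≤ 2 ^ (t + 1) := by rw [pow_succ]; omega
        exact_mod_cast this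
      calc ((2 ^ t + n + 2 : ℕ) : ℝ) ^ C₀ ≤ ((2 : ℝ) ^ (t + 1)) ^ C₀ :=
            pow_le_pow_left₀ (by positivity) h1 _
        _ = 2 ^ ((t + 1) * C₀) := by rw [← pow_mul]
        _ ≤ 2 ^ (n - 2) := by
            apply pow_le_pow_right₀ (by norm_num)
            have h2 : (t + 1) * C₀ + 2 ≤ k * t := by
              rw [hk]
              nlinarith [Nat.zero_le (C₀ * t)]
            omega
    have hg2 : (2 : ℝ) ^ f (M n) ≤ 2 ^ 2 ^ (n - 2) := by
      rw [← Real.rpow_natCast (2 : ℝ) (2 ^ (n - 2))]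
      apply Real.rpow_le_rpow_of_exponent_le (by norm_num)
      push_cast
      exact hg
    have hpow : 2 ^ n = 2 ^ (n - 2) + 2 ^ (n - 2) + 2 ^ (n - 1) := by
      have h1 : 2 ^ (n - 1) = 2 * 2 ^ (n - 2) := by
        have : n - 1 = (n - 2) + 1 := by omega
        rw [this, pow_succ]; ring
      have h2 : 2 ^ n = 4 * 2 ^ (n - 2) := by
        have : n = (n - 2) + 2 := by omega
        rw [this, pow_add]
        simp
        ring
      omega
    have hn1 : n ≤ 2 ^ (n - 1) := by
      have : n - 1 < 2 ^ (n - 1) := Nat.lt_two_pow_self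
      omega
    calc Ex unif (fun a : Fin (M n) → Bool => if EvS k n (M n) a then (1 : ℝ) else 0) *
          2 ^ f (M n) ≤ (nC n (2 ^ t) * (1 / 2) ^ 2 ^ n) * 2 ^ f (M n) :=
          mul_le_mul_of_nonneg_right hev (by positivity)
      _ ≤ (2 ^ 2 ^ (n - 2) * (1 / 2) ^ 2 ^ n) * 2 ^ 2 ^ (n - 2) := by
          apply mul_le_mul _ hg2 (by positivity) (by positivity)
          exact mul_le_mul_of_nonneg_right hnC (by positivity)
      _ = (1 / 2) ^ 2 ^ (n - 1) := by
          rw [hpow, pow_add (1 / 2 : ℝ), pow_add (1 / 2 : ℝ)]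
          have h1 : (2 : ℝ) ^ 2 ^ (n - 2) * (1 / 2) ^ 2 ^ (n - 2) = 1 := by
            rw [← mul_pow]; norm_num
          calc _ = ((2 : ℝ) ^ 2 ^ (n - 2) * (1 / 2) ^ 2 ^ (n - 2)) *
                (2 ^ 2 ^ (n - 2) * (1 / 2) ^ 2 ^ (n - 2)) * (1 / 2) ^ 2 ^ (n - 1) := by ring
            _ = _ := by rw [h1]; ring
      _ ≤ (1 / 2) ^ n := pow_le_pow_of_le_one (by norm_num) (by norm_num) hn1
  · intro A hA
    have h1 := hA (LT k A) (LT_time k A) (1 / (2 * k)) (by positivity)
    refine (h1.and_eventually (eventually_ge_atTop (max N₁ (2 * k)))).mono ?_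
    rintro n ⟨⟨C, hC1, hC2⟩, hn⟩
    have hnN : N₁ ≤ n := (le_max_left _ _).trans hn
    have hnk : 2 * k ≤ n := (le_max_right _ _).trans hn
    obtain ⟨hM1, -⟩ := hM n hnN
    have hCs : C.size ≤ 2 ^ (n / k) := by
      have h2 : (C.size : ℝ) < 2 ^ (n / k) := by
        refine hC1.trans_le ?_
        rw [← Real.rpow_natCast]
        apply Real.rpow_le_rpow_of_exponent_le (by norm_num)
        have hk0 : (0 : ℝ) < k := by positivity
        have h3 : n < k * (n / k + 1) := Nat.lt_mul_div_succ n (by omega)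
        have h4 : (n : ℝ) < k * ((n / k : ℕ) + 1) := by exact_mod_cast h3
        have h5 : ((2 : ℝ) * k) ≤ n := by exact_mod_cast hnk
        rw [div_mul_eq_mul_div, one_mul, div_le_iff₀ (by positivity)]
        nlinarith
      exact_mod_cast h2.le
    have hid : ∀ y : List Bool, y.length ≤ n + 2 ^ (n / k) →
        orc (M n) (pre (M n) A) y = A y := by
      intro y hy
      apply orc_pre
      have h2 := idx_lt y
      have h3 : 2 ^ (y.length + 1) ≤ 2 ^ (2 ^ (n / k) + n + 2) :=
        Nat.pow_le_pow_right (by norm_num) (by omega)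
      omega
    refine ⟨C, hCs, fun x hx => ?_⟩
    rw [hid _ (by rw [List.length_append, List.length_replicate, hx]),
      eval_local C (orc (M n) (pre (M n) A)) A (fun y hy => hid y (by omega)) x]
    have h2 := hC2 x hx
    unfold LT at h2
    rw [Set.mem_ofPred_eq, hx] at h2
    rw [Bool.eq_iff_iff]
    exact h2

end Pool.Agent.H249R3.Ckt
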