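import Pool.Agent.H622R2.Exp.KAux
import Pool.Agent.H620R2.Gauge.A2
import Pool.Agent.H622R2.Exp.YAux

/-!
# The test language for circuits

(helper249) The strings `x` such that `x 0 ^ (2 ^ (|x| / k))` is in the oracle.
-/

set_option autoImplicit false

namespace Pool.Agent.H249R3.Ckt

open Pool.Agent.NPC Pool.Agent.H620R2.Gauge Pool.Agent.H622R2
open Pool.Agent.H622R2.Exp (Lin InTime)

/-- the test language -/
def LT (k : ℕ) (A : Oracle) : Set (List Bool) :=
  {x | A (x ++ List.replicate (2 ^ (x.length / k)) false) = true}

namespace Test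

/-- the next action -/
def act (k : ℕ) (y : List Bool) : List Bool :=
  if (unpair y).2.length < 2 ^ ((unpair y).1.length / k) then [false] else
    if (unpair y).2.length = 2 ^ ((unpair y).1.length / k) then
      false :: ((unpair y).1 ++ (unpair y).2.map (fun _ => false))
    else [true, (unpair y).2.reverse.head?.getD false]

theorem poly_fst : Poly (fun y => (unpair y).1) := Poly.fst poly_unpair

theorem poly_snd : Poly (fun y => (unpair y).2) := Poly.snd poly_unpair

theorem poly_act (k : ℕ) : Poly (act k) := by
  have hl : Poly (fun y => (unpair y).2.length) := Poly.length poly_snd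
  have hu : UPoly (fun y => (unpair y).1.length / k) :=
    UPoly.of_le (Poly.div (Poly.length poly_fst) (NPC.Poly.const k)) (UPoly.length poly_fst)
      (fun a => Nat.div_le_self _ _)
  have h2 : Poly (fun y => 2 ^ ((unpair y).1.length / k)) := Exp.KAux.poly_two_pow hu
  have hz : Poly (fun y => (unpair y).2.map (fun _ => false)) :=
    NPC.Poly.map (F := fun _ _ => false) poly_snd (NPC.Poly.const false)
  refine Poly.ite (Poly.decide_lt hl h2) (NPC.Poly.const [false]) (Poly.ite
    (Poly.decide_eq hl h2) (Poly.cons (NPC.Poly.const false) (Poly.append poly_fst hz))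
    (Poly.cons (NPC.Poly.const true) (Poly.cons
      (Poly.head?_getD (Poly.reverse poly_snd) false) (NPC.Poly.const []))))

/-- the algorithm -/
noncomputable def alg (k : ℕ) : Alg where
  D := act k
  poly := polyTime_of_poly_list (poly_act k)
  p := 0

theorem act_lt {k : ℕ} {x a : List Bool} (h : a.length < 2 ^ (x.length / k)) :
    act k (pairBits x a) = [false] := by
  unfold act
  rw [unpair_pairBits]
  exact if_pos h

theorem act_eq {k : ℕ} {x a : List Bool} (h : a.length = 2 ^ (x.length / k)) :
    act k (pairBits x a) = false :: (x ++ List.replicate (2 ^ (x.length / k)) false) := by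
  unfold act
  rw [unpair_pairBits]
  simp only
  rw [if_neg (by omega), if_pos h, List.map_const', h]

theorem act_gt {k : ℕ} {x a : List Bool} (h : 2 ^ (x.length / k) < a.length) :
    act k (pairBits x a) = [true, a.reverse.head?.getD false] := by
  unfold act
  rw [unpair_pairBits]
  simp only
  rw [if_neg (by omega), if_neg (by omega)]

theorem run_short (k : ℕ) (A : Oracle) (x : List Bool) (j : ℕ) : ∀ (i : ℕ) (a : List Bool),
    a.length + i = 2 ^ (x.length / k) →
    (alg k).run A x (j + i) a = (alg k).run A x j (a ++ List.replicate i (A [])) := by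
  intro i
  induction i with
  | zero => intro a _; simp
  | succ i ih =>
    intro a h
    have h1 : (alg k).D (pairBits x a) = [false] := act_lt (by omega)
    rw [← add_assoc, Pool.Agent.H620R2.Gauge.A2.run_succ, h1]
    simp only [List.head?_cons, List.tail_cons, if_true]
    rw [ih (a ++ [A []]) (by simp; omega), List.append_assoc]
    rfl

theorem run_alg (k : ℕ) (A : Oracle) (x : List Bool) (j : ℕ) :
    (alg k).run A x (j + 2 + 2 ^ (x.length / k)) [] =
      some [A (x ++ List.replicate (2 ^ (x.length / k)) false)] := by
  rw [run_short k A x (j + 2) _ [] (by simp), List.nil_append]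
  set a := List.replicate (2 ^ (x.length / k)) (A []) with ha
  have hal : a.length = 2 ^ (x.length / k) := List.length_replicate
  have h1 : (alg k).D (pairBits x a) =
      false :: (x ++ List.replicate (2 ^ (x.length / k)) false) := act_eq hal
  rw [show j + 2 = (j + 1) + 1 from rfl, Pool.Agent.H620R2.Gauge.A2.run_succ, h1]
  simp only [List.head?_cons, List.tail_cons, if_true]
  set b := A (x ++ List.replicate (2 ^ (x.length / k)) false) with hb
  have h2 : (alg k).D (pairBits x (a ++ [b])) = [true, (a ++ [b]).reverse.head?.getD false] :=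
    act_gt (by simp [hal])
  rw [Pool.Agent.H620R2.Gauge.A2.run_succ, h2]
  simp

end Test

theorem LT_time (k : ℕ) (A : Oracle) : InTime Lin A (LT k A) := by
  refine ⟨Test.alg k, Polynomial.C 2 * (Polynomial.X + 1), ⟨2, rfl⟩, fun x => ?_⟩
  refine ⟨[A (x ++ List.replicate (2 ^ (x.length / k)) false)], ?_, ?_⟩
  · have h1 : 2 + 2 ^ (x.length / k) ≤
        2 ^ (Polynomial.C 2 * (Polynomial.X + 1) : Polynomial ℕ).eval x.length := by
      rw [Exp.YAux.eval_lin]
      have h2 : 2 ^ (x.length / k) ≤ 2 ^ (x.length + 1) :=
        Nat.pow_le_pow_right (by norm_num) ((Nat.div_le_self _ _).trans (Nat.le_succ _))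
      have h3 : 2 ≤ 2 ^ (x.length + 1) := by
        calc 2 = 2 ^ 1 := rfl
          _ ≤ 2 ^ (x.length + 1) := Nat.pow_le_pow_right (by norm_num) (by omega)
      have h4 : 2 ^ (2 * (x.length + 1)) = 2 ^ (x.length + 1) * 2 ^ (x.length + 1) := by
        rw [← pow_add]; congr 1; ring
      rw [h4]
      nlinarith
    obtain ⟨j, hj⟩ := Nat.exists_eq_add_of_le h1
    rw [hj]
    have h5 : 2 + 2 ^ (x.length / k) + j = j + 2 + 2 ^ (x.length / k) := by ring
    rw [h5]
    exact Test.run_alg k A x j
  · unfold LT
    simp

end Pool.Agent.H249R3.Ckt
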